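import Pool.Agent.Y208.BH.Stm

set_option autoImplicit false

/-!
# Project BH, task TF2: the piecewise linear maps
-/

namespace Pool.Agent.Y484.BH
open Y208.BH

/-- the inverse of `th n` -/
def thi (n : ℕ) (t : ℚ) : ℚ := if t ≤ n then t else if t ≤ n + 2 then n + (t - n) / 2 else t - 1

theorem thi_th (n : ℕ) (t : ℚ) : thi n (th n t) = t := by
  unfold thi th
  split_ifs <;> linarith

theorem th_thi (n : ℕ) (t : ℚ) : th n (thi n t) = t := by
  unfold thi th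
  split_ifs <;> linarith

theorem th_pos (n : ℕ) {t : ℚ} (h : 0 < t) : 0 < th n t := by
  have hn : (0 : ℚ) ≤ n := Nat.cast_nonneg n
  unfold th
  split_ifs <;> linarith

theorem thi_pos (n : ℕ) {t : ℚ} (h : 0 < t) : 0 < thi n t := by
  have hn : (0 : ℚ) ≤ n := Nat.cast_nonneg n
  unfold thi
  split_ifs <;> linarith

theorem th_dy (n : ℕ) {t : ℚ} (h : ∃ (k : ℕ) (m : ℤ), 2 ^ k * t = m) :
    ∃ (k : ℕ) (m : ℤ), 2 ^ k * th n t = m := by
  obtain ⟨k, m, h⟩ := h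
  unfold th
  split_ifs
  · exact ⟨k, m, h⟩
  · refine ⟨k, 2 * m - 2 ^ k * n, ?_⟩
    push_cast
    rw [← h]
    ring
  · refine ⟨k, m + 2 ^ k, ?_⟩
    push_cast
    rw [← h]
    ring

theorem thi_dy (n : ℕ) {t : ℚ} (h : ∃ (k : ℕ) (m : ℤ), 2 ^ k * t = m) :
    ∃ (k : ℕ) (m : ℤ), 2 ^ k * thi n t = m := by
  obtain ⟨k, m, h⟩ := h
  unfold thi
  split_ifs
  · exact ⟨k, m, h⟩
  · refine ⟨k + 1, m + 2 ^ k * n, ?_⟩
    push_cast
    rw [← h]
    ring
  · refine ⟨k, m - 2 ^ k, ?_⟩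
    push_cast
    rw [← h]
    ring

theorem th_rel (j k : ℕ) (h : j < k) (t : ℚ) : th (k + 1) (th j t) = th j (th k t) := by
  have h1 : (j : ℚ) + 1 ≤ k := by exact_mod_cast h
  unfold th
  push_cast
  split_ifs <;> linarith

/-- the permutations of the dyadic rationals -/
def Xp (n : ℕ) : Equiv.Perm Dy where
  toFun t := ⟨th n t, th_pos n t.2.1, th_dy n t.2.2⟩
  invFun t := ⟨thi n t, thi_pos n t.2.1, thi_dy n t.2.2⟩
  left_inv t := Subtype.ext (thi_th n t)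
  right_inv t := Subtype.ext (th_thi n t)

theorem t_TF2 : Y208.BH.S_TF2 := by
  refine ⟨Xp, ?_, fun n t => rfl⟩
  intro j k h
  apply Equiv.ext
  intro t
  exact Subtype.ext (th_rel j k h t)

end Pool.Agent.Y484.BH
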