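import Pool.Agent.Y208.BH.Stm

set_option autoImplicit false

/-!
# Project BH, task UQ: uniqueness and quotients
-/

open scoped commutatorElement

namespace Pool.Agent.Y484.BH
open Y208.BH

section Basic

variable {R I Γ : Type} [Ring R] [Group Γ] {x : I → I → R → Γ}

theorem x_zero (hx : St x) {i j : I} (h : i ≠ j) : x i j 0 = 1 := by
  have h1 := hx.add i j h 0 0
  rw [add_zero] at h1
  exact left_eq_mul.mp h1

theorem x_mul_r (hx : St x) {i j l : I} (hij : i ≠ j) (hil : i ≠ l) (hjl : j ≠ l) {a : R} (b : R)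
    (h : x i j a = 1) : x i l (a * b) = 1 := by
  rw [← hx.mul i j l hij hjl hil, h, commutatorElement_one_left]

theorem x_mul_l (hx : St x) {i l k : I} (hki : k ≠ i) (hil : i ≠ l) (hkl : k ≠ l) (a : R) {b : R}
    (h : x i l b = 1) : x k l (a * b) = 1 := by
  rw [← hx.mul k i l hki hil hkl, h, commutatorElement_one_right]

/-- if `x i j t = 1` for one pair of different indices then for all pairs -/
theorem x_all [Infinite I] (hx : St x) {i j : I} (hij : i ≠ j) {t : R} (h : x i j t = 1) (k l : I)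
    (hkl : k ≠ l) : x k l t = 1 := by
  classical
  obtain ⟨m, hm⟩ := Infinite.exists_notMem_finset ({i, j, k, l} : Finset I)
  simp only [Finset.mem_insert, Finset.mem_singleton, not_or] at hm
  obtain ⟨hmi, hmj, hmk, hml⟩ := hm
  have h1 : x i m t = 1 := by
    have := x_mul_r hx hij (Ne.symm hmi) (Ne.symm hmj) 1 h
    rwa [mul_one] at this
  have h2 : x k m t = 1 := by
    by_cases hki : k = i
    · rw [hki]
      exact h1
    · have := x_mul_l hx hki (Ne.symm hmi) (Ne.symm hmk) 1 h1
      rwa [one_mul] at this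
  have := x_mul_r hx (Ne.symm hmk) hkl hml 1 h2
  rwa [mul_one] at this

/-- the elements with trivial image form an ideal -/
theorem x_span [Infinite I] (hx : St x) {T : Set R} (hT : ∀ t ∈ T, ∀ k l, k ≠ l → x k l t = 1)
    {r : R} (hr : r ∈ TwoSidedIdeal.span T) : ∀ k l, k ≠ l → x k l r = 1 := by
  classical
  have hfr : ∀ k l : I, ∃ m, m ≠ k ∧ m ≠ l := by
    intro k l
    obtain ⟨m, hm⟩ := Infinite.exists_notMem_finset ({k, l} : Finset I)
    simp only [Finset.mem_insert, Finset.mem_singleton, not_or] at hm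
    exact ⟨m, hm.1, hm.2⟩
  let N : TwoSidedIdeal R := TwoSidedIdeal.mk' {r | ∀ k l, k ≠ l → x k l r = 1}
    (fun k l h => x_zero hx h)
    (fun {a b} ha hb k l h => by
      rw [hx.add k l h, ha k l h, hb k l h, one_mul])
    (fun {a} ha k l h => by
      have h1 := hx.add k l h a (-a)
      rw [add_neg_cancel, x_zero hx h, ha k l h, one_mul] at h1
      exact h1.symm)
    (fun {a b} hb k l h => by
      obtain ⟨m, hk, hl⟩ := hfr k l
      exact x_mul_l hx (Ne.symm hk) hl h a (hb m l hl))
    (fun {a b} ha k l h => by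
      obtain ⟨m, hk, hl⟩ := hfr k l
      exact x_mul_r hx (Ne.symm hk) h hl b (ha k m (Ne.symm hk)))
  have h1 : TwoSidedIdeal.span T ≤ N := by
    rw [TwoSidedIdeal.span_le]
    intro t ht
    exact (TwoSidedIdeal.mem_mk' _ _ _ _ _ _ _).mpr (hT t ht)
  exact (TwoSidedIdeal.mem_mk' _ _ _ _ _ _ _).mp (h1 hr)

end Basic

theorem t_UNIQ : Y208.BH.S_UNIQ := by
  classical
  intro A I Γ _ _ x x' hx hx' h1 ha i j r hij
  have key : ∀ r : FreeAlgebra (ZMod 2) A, ∀ i j, i ≠ j → x i j r = x' i j r := by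
    intro r
    induction r using FreeAlgebra.induction with
    | grade0 c =>
      intro i j h
      rcases (by decide : ∀ c : ZMod 2, c = 0 ∨ c = 1) c with rfl | rfl
      · rw [map_zero, x_zero hx h, x_zero hx' h]
      · rw [map_one]
        exact h1 i j h
    | grade1 a => exact fun i j h => ha i j a h
    | mul a b iha ihb =>
      intro i j h
      obtain ⟨m, hm⟩ := Infinite.exists_notMem_finset ({i, j} : Finset I)
      simp only [Finset.mem_insert, Finset.mem_singleton, not_or] at hm
      rw [← hx.mul i m j (Ne.symm hm.1) hm.2 h, ← hx'.mul i m j (Ne.symm hm.1) hm.2 h,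
        iha i m (Ne.symm hm.1), ihb m j hm.2]
    | add a b iha ihb =>
      intro i j h
      rw [hx.add i j h, hx'.add i j h, iha i j h, ihb i j h]
  exact key r i j hij

theorem t_QUO : Y208.BH.S_QUO := by
  intro R₀ R I Γ _ _ _ _ φ T x hφ hT hx hij
  obtain ⟨i0, j0, hij, ht⟩ := hij
  have h1 : ∀ r, φ r = 0 → ∀ k l, k ≠ l → x k l r = 1 := fun r hr =>
    x_span hx (fun t h k l hkl => x_all hx hij (ht t h) k l hkl) (hT r hr)
  have h2 : ∀ r s, φ r = φ s → ∀ k l, k ≠ l → x k l r = x k l s := by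
    intro r s hrs k l h
    have h3 := hx.add k l h s (r - s)
    rw [add_sub_cancel, h1 (r - s) (by rw [map_sub, hrs, sub_self]) k l h, mul_one] at h3
    exact h3
  have hinv : ∀ a, φ (Function.surjInv hφ a) = a := Function.surjInv_eq hφ
  refine ⟨fun i j a => x i j (Function.surjInv hφ a), ⟨?_, ?_, ?_⟩, ?_⟩
  · intro i j h a b
    rw [← hx.add i j h]
    exact h2 _ _ (by rw [map_add, hinv, hinv, hinv]) i j h
  · intro i j k hij hjk hik a b
    rw [hx.mul i j k hij hjk hik]
    exact h2 _ _ (by rw [map_mul, hinv, hinv, hinv]) i k hik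
  · intro i j k l h3 h4 h5 h6 a b
    exact hx.comm i j k l h3 h4 h5 h6 _ _
  · intro i j r h
    exact h2 _ _ (hinv _) i j h

end Pool.Agent.Y484.BH
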